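import Mathlib

/-!
Power sums of an `l^q` family of complex numbers: infinitely many of them are not small.
-/

namespace Pool.Agent.Helper16.Abund

open Filter Topology

/-- simultaneous recurrence of finitely many unimodular numbers -/
theorem exists_pow_near_one {J : Type*} [Fintype J] (u : J → ℂ) (hu : ∀ j, ‖u j‖ = 1)
    {ε : ℝ} (hε : 0 < ε) (K : ℕ) : ∃ k : ℕ, K ≤ k ∧ ∀ j, ‖u j ^ k - 1‖ < ε := by
  classical
  have hmem : ∀ n : ℕ, (fun j => u j ^ n) ∈ Metric.closedBall (0 : J → ℂ) 1 := by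
    intro n
    rw [mem_closedBall_zero_iff, pi_norm_le_iff_of_nonneg zero_le_one]
    intro j
    rw [norm_pow, hu j, one_pow]
  obtain ⟨x, -, φ, hφ, hx⟩ := (isCompact_closedBall (0 : J → ℂ) 1).tendsto_subseq hmem
  have hc : CauchySeq ((fun n : ℕ => fun j => u j ^ n) ∘ φ) := hx.cauchySeq
  obtain ⟨N, hN⟩ := Metric.cauchySeq_iff.1 hc ε hε
  refine ⟨φ (N + (φ N + K)) - φ N, ?_, ?_⟩
  · have := hφ.id_le (N + (φ N + K))
    simp only [id] at this
    omega
  · intro j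
    have hle : φ N ≤ φ (N + (φ N + K)) := hφ.monotone (by omega)
    have h1 := hN (N + (φ N + K)) (by omega) N le_rfl
    have h2 : dist (((fun n : ℕ => fun j => u j ^ n) ∘ φ) (N + (φ N + K)) j)
        (((fun n : ℕ => fun j => u j ^ n) ∘ φ) N j) < ε :=
      lt_of_le_of_lt (dist_le_pi_dist _ _ j) h1
    simp only [Function.comp] at h2
    rw [dist_eq_norm] at h2
    have h3 : u j ^ φ (N + (φ N + K)) - u j ^ φ N =
        u j ^ φ N * (u j ^ (φ (N + (φ N + K)) - φ N) - 1) := by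
      rw [mul_sub, mul_one, ← pow_add, Nat.add_sub_cancel' hle]
    rw [h3, norm_mul, norm_pow, hu j, one_pow, one_mul] at h2
    exact h2

theorem exists_powerSum {ι : Type*} {a : ι → ℂ} {q : ℝ} (hq : 0 < q)
    (ha : Summable fun i => ‖a i‖ ^ q) (i₀ : ι) (K : ℕ) :
    ∃ k : ℕ, K ≤ k ∧ ‖a i₀‖ ^ k ≤ 2 * ‖∑' i, a i ^ k‖ := by
  classical
  by_cases h0 : ∀ i, a i = 0
  · refine ⟨K + 1, by omega, ?_⟩
    rw [h0 i₀, norm_zero, zero_pow (by omega)]
    positivity
  push Not at h0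
  obtain ⟨i₁, hi₁⟩ := h0
  -- the set of large terms is finite
  have hfin : {i | ‖a i₁‖ ≤ ‖a i‖}.Finite := by
    have h1 := ha.tendsto_cofinite_zero
    have h2 : ∀ᶠ i in cofinite, ‖a i‖ ^ q < ‖a i₁‖ ^ q :=
      h1.eventually_lt_const (Real.rpow_pos_of_pos (norm_pos_iff.2 hi₁) q)
    refine (eventually_cofinite.1 h2).subset ?_
    intro i hi
    simp only [Set.mem_setOf_eq, not_lt] at hi ⊢
    exact Real.rpow_le_rpow (norm_nonneg _) hi hq.le
  obtain ⟨i₂, hi₂, hmax⟩ := hfin.toFinset.exists_max_image (fun i => ‖a i‖)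
    ⟨i₁, by simp⟩
  set M : ℝ := ‖a i₂‖ with hM
  have hi₂' : ‖a i₁‖ ≤ M := by simpa using hi₂
  have hM0 : 0 < M := lt_of_lt_of_le (norm_pos_iff.2 hi₁) hi₂'
  have hle : ∀ i, ‖a i‖ ≤ M := by
    intro i
    by_cases hi : ‖a i₁‖ ≤ ‖a i‖
    · exact hmax i (by simpa using hi)
    · exact (not_le.1 hi).le.trans hi₂'
  have hJfin : {i | ‖a i‖ = M}.Finite := hfin.subset (by
    intro i hi
    simp only [Set.mem_setOf_eq] at hi ⊢
    rw [hi]; exact hi₂')
  set J : Finset ι := hJfin.toFinset with hJ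
  have hJmem : ∀ i, i ∈ J ↔ ‖a i‖ = M := by intro i; simp [hJ]
  have hJ2 : i₂ ∈ J := (hJmem _).2 rfl
  have hMc : (M : ℂ) ≠ 0 := by exact_mod_cast hM0.ne'
  set b : ι → ℂ := fun i => a i / M with hb
  have hbn : ∀ i, ‖b i‖ = ‖a i‖ / M := by
    intro i
    simp only [hb, norm_div, Complex.norm_real, Real.norm_eq_abs, abs_of_pos hM0]
  have hb1 : ∀ i, ‖b i‖ ≤ 1 := fun i => by
    rw [hbn]; exact (div_le_one hM0).2 (hle i)
  have hbJ : ∀ i, i ∈ J → ‖b i‖ = 1 := fun i hi => by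
    rw [hbn, (hJmem i).1 hi, div_self hM0.ne']
  have hbJ' : ∀ i, i ∉ J → ‖b i‖ < 1 := fun i hi => by
    rw [hbn, div_lt_one hM0]
    exact lt_of_le_of_ne (hle i) (fun h => hi ((hJmem i).2 h))
  have hbs : Summable fun i => ‖b i‖ ^ q := by
    have : (fun i => ‖b i‖ ^ q) = fun i => ‖a i‖ ^ q * (M ^ q)⁻¹ := by
      funext i
      rw [hbn, Real.div_rpow (norm_nonneg _) hM0.le, div_eq_mul_inv]
    rw [this]
    exact ha.mul_right _
  -- the tail
  obtain ⟨Q, hQ⟩ := exists_nat_ge q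
  set g : ℕ → ι → ℂ := fun k i => if i ∈ J then 0 else b i ^ k with hg
  have hpow : ∀ k, Q ≤ k → ∀ i, ‖b i ^ k‖ ≤ ‖b i‖ ^ q := by
    intro k hk i
    rw [norm_pow, ← Real.rpow_natCast]
    rcases (norm_nonneg (b i)).eq_or_lt with h | h
    · rw [← h, Real.zero_rpow hq.ne', Real.zero_rpow]
      have : (q : ℝ) ≤ k := hQ.trans (by exact_mod_cast hk)
      exact (hq.trans_le this).ne'
    · exact Real.rpow_le_rpow_of_exponent_ge h (hb1 i) (hQ.trans (by exact_mod_cast hk))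
  have htail : Tendsto (fun k => ∑' i, g k i) atTop (𝓝 (∑' _ : ι, (0 : ℂ))) := by
    refine tendsto_tsum_of_dominated_convergence hbs ?_ ?_
    · intro i
      by_cases hi : i ∈ J
      · simp only [hg, if_pos hi]; exact tendsto_const_nhds
      · simp only [hg, if_neg hi]
        exact tendsto_pow_atTop_nhds_zero_of_norm_lt_one (hbJ' i hi)
    · filter_upwards [eventually_ge_atTop Q] with k hk i
      by_cases hi : i ∈ J
      · simp only [hg, if_pos hi, norm_zero]; positivity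
      · simp only [hg, if_neg hi]; exact hpow k hk i
  rw [tsum_zero] at htail
  have hev : ∀ᶠ k in atTop, ‖∑' i, g k i‖ < 1 / 4 := by
    have := htail.norm
    rw [norm_zero] at this
    exact this.eventually_lt_const (by norm_num)
  obtain ⟨k₀, hk₀⟩ := eventually_atTop.1 hev
  obtain ⟨k, hk, hku⟩ := exists_pow_near_one (fun j : J => b j.1) (fun j => hbJ j.1 j.2)
    (ε := 1 / 4) (by norm_num) (max K (max k₀ Q))
  have hkK : K ≤ k := (le_max_left _ _).trans hk
  have hkk₀ : k₀ ≤ k := (le_max_left _ _).trans ((le_max_right _ _).trans hk)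
  have hkQ : Q ≤ k := (le_max_right _ _).trans ((le_max_right _ _).trans hk)
  refine ⟨k, hkK, ?_⟩
  -- main term
  have hmain : (3 : ℝ) / 4 ≤ ‖∑ i ∈ J, b i ^ k‖ := by
    have h1 : ∑ i ∈ J, b i ^ k = (J.card : ℂ) + ∑ i ∈ J, (b i ^ k - 1) := by
      rw [Finset.sum_sub_distrib, Finset.sum_const, nsmul_eq_mul, mul_one]; ring
    have h2 : ‖∑ i ∈ J, (b i ^ k - 1)‖ ≤ J.card * (1 / 4) := by
      refine (norm_sum_le _ _).trans ?_
      rw [← nsmul_eq_mul]
      exact Finset.sum_le_card_nsmul _ _ _ (fun i hi => (hku ⟨i, hi⟩).le)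
    have h3 : ‖(J.card : ℂ)‖ = J.card := by simp
    have h4 : (1 : ℝ) ≤ J.card := by
      exact_mod_cast Finset.card_pos.2 ⟨i₂, hJ2⟩
    have h5 : ‖(J.card : ℂ)‖ - ‖∑ i ∈ J, (b i ^ k - 1)‖ ≤ ‖∑ i ∈ J, b i ^ k‖ := by
      rw [h1]
      have := norm_sub_le ((J.card : ℂ) + ∑ i ∈ J, (b i ^ k - 1)) (∑ i ∈ J, (b i ^ k - 1))
      rw [add_sub_cancel_right] at this
      linarith
    rw [h3] at h5
    linarith
  have hdec : ∑' i, b i ^ k = ∑ i ∈ J, b i ^ k + ∑' i, g k i := by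
    have hs1 : Summable fun i => (if i ∈ J then b i ^ k else 0) :=
      summable_of_ne_finset_zero (s := J) (fun i hi => if_neg hi)
    have hs2 : Summable (g k) := by
      refine Summable.of_norm_bounded hbs (fun i => ?_)
      by_cases hi : i ∈ J
      · simp only [hg, if_pos hi, norm_zero]; positivity
      · simp only [hg, if_neg hi]; exact hpow k hkQ i
    have h1 : ∑' i, (if i ∈ J then b i ^ k else 0) = ∑ i ∈ J, b i ^ k := by
      rw [tsum_eq_sum (s := J) (fun i hi => if_neg hi)]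
      exact Finset.sum_congr rfl (fun i hi => if_pos hi)
    rw [← h1, ← hs1.tsum_add hs2]
    refine tsum_congr (fun i => ?_)
    by_cases hi : i ∈ J
    · simp [hg, hi]
    · simp [hg, hi]
  have hhalf : (1 : ℝ) / 2 ≤ ‖∑' i, b i ^ k‖ := by
    rw [hdec]
    have h1 := norm_sub_le (∑ i ∈ J, b i ^ k + ∑' i, g k i) (∑' i, g k i)
    rw [add_sub_cancel_right] at h1
    have h2 := hk₀ k hkk₀
    linarith
  have hfull : ∑' i, a i ^ k = (M : ℂ) ^ k * ∑' i, b i ^ k := by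
    rw [← tsum_mul_left]
    refine tsum_congr (fun i => ?_)
    rw [← mul_pow]
    congr 1
    simp only [hb]
    field_simp
  rw [hfull, norm_mul, norm_pow, Complex.norm_real, Real.norm_eq_abs, abs_of_pos hM0]
  have h1 : ‖a i₀‖ ^ k ≤ M ^ k := pow_le_pow_left₀ (norm_nonneg _) (hle i₀) k
  have h2 : 0 ≤ M ^ k := by positivity
  nlinarith

end Pool.Agent.Helper16.Abund
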